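import Pool.Agent.XE31.C2.StmA

/-! Project C2 (helper31, helper43), piece DER. -/

set_option autoImplicit false

namespace Pool.Agent.XE31.C2

open Polynomial

theorem t_der : St_der := by
  intro R _ d a D G G₂ s hG
  have h : ∀ k, ∃ Q : R[X], derivative (a k ^ 8 * G ^ k * (C s * D ^ 8) ^ (d - k)) =
      D ^ 8 * ((k : R[X]) * a k ^ 8 * G ^ (k - 1) * (C s * D ^ 8) ^ (d - k)) + 8 * Q := by
    intro k
    refine ⟨a k ^ 7 * derivative (a k) * G ^ k * (C s * D ^ 8) ^ (d - k) +
      a k ^ 8 * ((k : R[X]) * G ^ (k - 1) * G₂) * (C s * D ^ 8) ^ (d - k) +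
      a k ^ 8 * G ^ k * (((d - k : ℕ) : R[X]) * (C s * D ^ 8) ^ (d - k - 1) *
        (C s * (D ^ 7 * derivative D))), ?_⟩
    rw [derivative_mul, derivative_mul, derivative_pow, derivative_pow, derivative_pow,
      derivative_C_mul, derivative_pow, hG]
    simp only [map_natCast, map_ofNat, Nat.cast_ofNat]
    ring
  choose Q hQ using h
  refine ⟨∑ k ∈ Finset.range (d + 1), Q k, ?_⟩
  rw [PW, UW, derivative_sum, Finset.mul_sum, Finset.mul_sum, ← Finset.sum_add_distrib]
  exact Finset.sum_congr rfl fun k _ => hQ k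

end Pool.Agent.XE31.C2
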