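import Pool.Agent.XE31.C2.StmA

/-! Project C2 (helper31, helper43), piece ETA. -/

set_option autoImplicit false

namespace Pool.Agent.XE31.C2

open Polynomial

theorem t_eta : St_eta := by
  intro R _ d a E G s x η hd hG
  constructor
  · rw [PW, eval_finsetSum, ev2, XI, Polynomial.map_sum, eval_finsetSum, Finset.mul_sum]
    refine Finset.sum_congr rfl fun k hk => ?_
    have hk' : k ≤ d := Nat.lt_succ_iff.1 (Finset.mem_range.1 hk)
    simp only [eval_mul, eval_pow, eval_C, hG, Polynomial.map_mul, Polynomial.map_pow, map_C, map_X,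
      coe_evalRingHom, eval_X]
    have h1 : (s * E.eval x) ^ d = (s * E.eval x) ^ k * (s * E.eval x) ^ (d - k) := by
      rw [← pow_add, Nat.add_sub_cancel' hk']
    rw [h1]
    ring
  · rw [UW, eval_finsetSum, ev2, XI, derivative_sum, Polynomial.map_sum, eval_finsetSum,
      Finset.mul_sum]
    refine Finset.sum_congr rfl fun k hk => ?_
    have hk' : k ≤ d := Nat.lt_succ_iff.1 (Finset.mem_range.1 hk)
    rcases Nat.eq_zero_or_pos k with rfl | hk0
    · have h0 : derivative (C (a 0 ^ 8) * (X : R[X][X]) ^ 0) = 0 := by
        rw [pow_zero, mul_one, derivative_C]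
      rw [h0]
      simp
    · simp only [eval_mul, eval_pow, eval_C, hG, Polynomial.map_mul, Polynomial.map_pow, map_C,
        map_X, coe_evalRingHom, eval_X, derivative_C_mul, derivative_X_pow, eval_natCast]
      have h1 : (s * E.eval x) ^ (d - 1) = (s * E.eval x) ^ (k - 1) * (s * E.eval x) ^ (d - k) := by
        rw [← pow_add]
        congr 1
        omega
      rw [h1]
      ring

end Pool.Agent.XE31.C2
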