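import Pool.Agent.XE31.C2.StmA

/-! Project C2 (helper31, helper43), piece NONZ. -/

set_option autoImplicit false

namespace Pool.Agent.XE31.C2

open Polynomial

theorem t_nonz : St_nonz := by
  intro R _ _ d g a b ha hb c hc
  have h1 : ∀ i, (fun k : Fin d => ∑ m : Fin g, c (m, k) * a i ^ (m : ℕ)) = 0 := by
    intro i
    refine Matrix.eq_zero_of_forall_index_sum_pow_mul_eq_zero (hb i) fun j => ?_
    have h2 := hc (i, j)
    rw [Fintype.sum_prod_type, Finset.sum_comm] at h2
    rw [← h2]
    refine Finset.sum_congr rfl fun k _ => ?_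
    rw [Finset.mul_sum]
    refine Finset.sum_congr rfl fun m _ => ?_
    ring
  funext ⟨m, k⟩
  have h2 : (fun m : Fin g => c (m, k)) = 0 := by
    refine Matrix.eq_zero_of_forall_index_sum_pow_mul_eq_zero ha fun i => ?_
    have h3 := congrFun (h1 i) k
    simp only [Pi.zero_apply] at h3
    rw [← h3]
    exact Finset.sum_congr rfl fun m _ => mul_comm _ _
  exact congrFun h2 m

end Pool.Agent.XE31.C2
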