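import Pool.Agent.XE31.C2.StmA

/-! Project C2 (helper31, helper43), piece RES. -/

set_option autoImplicit false

namespace Pool.Agent.XE31.C2

open Polynomial

theorem t_res8 : St_res8 := by
  intro R _ _ δ b D₁ E E₁ Z G G₁ W₀ hD hG₁ hG₁0 hE hG hdeg
  obtain ⟨φ, hφ⟩ : ∃ φ : R →+* R ⧸ Ideal.span {(8 : R)}, φ = Ideal.Quotient.mk _ := ⟨_, rfl⟩
  have hφ8 : φ 8 = 0 := by
    rw [hφ]
    exact Ideal.Quotient.eq_zero_iff_mem.2 (Ideal.mem_span_singleton_self _)
  have hdeg8 : (G₁ ^ 8).natDegree = 8 * b := by rw [natDegree_pow, hG₁]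
  have h1 := resultant_pow_left G₁ D₁ 8 δ (pow_ne_zero _ (leadingCoeff_ne_zero.2 hG₁0)) hD
  rw [hdeg8, hG₁] at h1
  have hmap : G.map φ = (G₁ ^ 8).map φ + D₁.map φ * (E₁ * W₀).map φ := by
    rw [hG, hE]
    have h8 : (8 : R[X]).map φ = 0 := by
      have h9 : (8 : R[X]) = C (8 : R) := (C_ofNat 8).symm
      rw [h9, map_C, hφ8, C_0]
    simp only [Polynomial.map_add, Polynomial.map_mul, h8]
    ring
  have h2 : φ (resultant G D₁ (8 * b) δ) = φ ((resultant G₁ D₁ b δ) ^ 8) := by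
    rw [← resultant_map_map, hmap, resultant_add_mul_left _ _ _ _ _ ?_ ?_, resultant_map_map, h1]
    · exact (Nat.add_le_add_right natDegree_map_le _).trans hdeg
    · exact natDegree_map_le.trans hD
  have h3 : resultant G D₁ (8 * b) δ - (resultant G₁ D₁ b δ) ^ 8 ∈ Ideal.span {(8 : R)} := by
    rw [← Ideal.Quotient.eq_zero_iff_mem, ← hφ, map_sub, h2, sub_self]
  obtain ⟨t, ht⟩ := Ideal.mem_span_singleton.1 h3
  exact ⟨t, by linear_combination ht⟩

end Pool.Agent.XE31.C2
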