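import Pool.Agent.XE31.C2.StmA

/-! Project C2 (helper31, helper43), piece SGNV (adapted from Pool/Agent/Y436/AW/Par.lean). -/

set_option autoImplicit false

namespace Pool.Agent.XE31.C2

open Polynomial Finset

namespace Sgnv

lemma even_card (m : ℕ) : Even (∑ l : Fin (4 * m), (Ioi l).card) := by
  have h1 : ∑ l : Fin (4 * m), (Ioi l).card = ∑ i ∈ range (4 * m), i := by
    rw [← Finset.sum_range_reflect]
    rw [← Fin.sum_univ_eq_sum_range (fun i => 4 * m - 1 - i) (4 * m)]
    refine sum_congr rfl fun l _ => ?_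
    rw [Fin.card_Ioi]
  rw [h1]
  have h2 := Finset.sum_range_id_mul_two (4 * m)
  refine ⟨m * (4 * m - 1), ?_⟩
  have h3 : 4 * m * (4 * m - 1) = 4 * (m * (4 * m - 1)) := by ring
  omega

lemma prod_eq {N : Type} [CommRing N] (m : ℕ) (x : Fin (4 * m) → N) :
    ∏ l, ∏ j ∈ univ.erase l, (x l - x j) = (Matrix.vandermonde x).det ^ 2 := by
  have h1 : ∀ l : Fin (4 * m), ∏ j ∈ univ.erase l, (x l - x j) =
      (∏ j ∈ Ioi l, (x l - x j)) * ∏ j ∈ Iio l, (x l - x j) := by
    intro l
    rw [← prod_union]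
    · refine prod_congr ?_ fun _ _ => rfl
      ext j
      simp only [mem_erase, mem_univ, and_true, mem_union, mem_Ioi, mem_Iio]
      constructor
      · intro h
        rcases lt_or_gt_of_ne h with h | h
        · exact Or.inr h
        · exact Or.inl h
      · rintro (h | h)
        · exact h.ne'
        · exact h.ne
    · rw [disjoint_left]
      intro j hj hj'
      rw [mem_Ioi] at hj
      rw [mem_Iio] at hj'
      exact absurd hj hj'.not_gt
  rw [prod_congr rfl fun l _ => h1 l, prod_mul_distrib]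
  have h2 : ∏ l : Fin (4 * m), ∏ j ∈ Iio l, (x l - x j) =
      ∏ j : Fin (4 * m), ∏ l ∈ Ioi j, (x l - x j) := by
    apply prod_comm'
    intro a b
    simp
  have h3 : ∏ l : Fin (4 * m), ∏ j ∈ Ioi l, (x l - x j) =
      ∏ l : Fin (4 * m), ∏ j ∈ Ioi l, (x j - x l) := by
    have h4 : ∀ l : Fin (4 * m), ∏ j ∈ Ioi l, (x l - x j) =
        (-1) ^ (Ioi l).card * ∏ j ∈ Ioi l, (x j - x l) := by
      intro l
      rw [← prod_const, ← prod_mul_distrib]
      refine prod_congr rfl fun j _ => ?_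
      ring
    rw [prod_congr rfl fun l _ => h4 l, prod_mul_distrib, prod_pow_eq_pow_sum,
      (even_card m).neg_one_pow, one_mul]
  rw [h2, h3, Matrix.det_vandermonde, sq]

end Sgnv

theorem t_sgnv : St_sgnv := by
  intro R _ n hn x
  obtain ⟨m, rfl⟩ := hn
  refine ⟨(Matrix.vandermonde x).det, (Sgnv.prod_eq m x).symm, fun σ π hσ => ?_⟩
  have h1 : σ (Matrix.vandermonde x).det = (σ : R →+* R) (Matrix.vandermonde x).det := rfl
  rw [h1, RingHom.map_det, zsmul_eq_mul, ← Matrix.det_permute]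
  congr 1
  ext i j
  simp [Matrix.vandermonde_apply, hσ]

end Pool.Agent.XE31.C2
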