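import Pool.Agent.XE31.C2.StmA

/-! Project C2 (helper31, helper43), piece SQ. -/

set_option autoImplicit false

namespace Pool.Agent.XE31.C2

open Polynomial

theorem t_sq : St_sq := by
  intro N W _ _ _ r τ hW σ v c w u hv hrv hσc hσv
  have _ : IsDomain W := hW.dom
  have h20 := hW.two
  have h2N : (2 : N) = 0 := CharTwo.two_eq_zero
  have hr2 : r 2 = 0 := by rw [map_ofNat, h2N]
  rcases Int.units_eq_one_or u with hu | hu
  · exact hu
  exfalso
  rw [hu] at hσv
  have hσv' : σ v = -v := by simpa using hσv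
  -- `r v = r c`
  have h8 : (8 : N) = 0 := by
    have : (8 : N) = 2 * 4 := by norm_num
    rw [this, h2N, zero_mul]
  have h1 : r v ^ 2 = r c ^ 2 := by
    have h := congrArg r hv
    rw [map_pow, map_add, map_pow, map_mul, map_ofNat, h8, zero_mul, add_zero] at h
    exact h
  have h2 : (r v - r c) ^ 2 = 0 := by
    have : (r v - r c) ^ 2 = r v ^ 2 - r c ^ 2 + 2 * (r c ^ 2 - r v * r c) := by ring
    rw [this, h1, h2N]
    ring
  have h3 : r (v - c) = 0 := by
    rw [map_sub]
    exact pow_eq_zero_iff (two_ne_zero) |>.1 h2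
  obtain ⟨f, hf⟩ := hW.ker _ h3
  have hvf : v = c + 2 * f := by linear_combination hf
  have h4 : f * (f + c) = 2 * w := by
    have h5 : (2 : W) * 2 * (f * (f + c)) = 2 * 2 * (2 * w) := by
      rw [hvf] at hv
      linear_combination hv
    exact mul_left_cancel₀ (mul_ne_zero h20 h20) h5
  have hrc : r c ≠ 0 := by
    have : r v = r c := by
      rw [map_sub, sub_eq_zero] at h3
      exact h3
    rwa [← this]
  have h5 : r f * r (f + c) = 0 := by rw [← map_mul, h4, map_mul, hr2, zero_mul]
  rcases mul_eq_zero.1 h5 with h6 | h6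
  · obtain ⟨f', hf'⟩ := hW.ker _ h6
    have h7 : σ v = c + 4 * σ f' := by
      rw [hvf, hf', map_add, hσc, map_mul, map_mul, map_ofNat]
      ring
    have h9 : (2 : W) * c = 2 * (2 * -(σ f' + f')) := by
      rw [hσv', hvf, hf'] at h7
      linear_combination -h7
    have h10 := mul_left_cancel₀ h20 h9
    apply hrc
    rw [h10, map_mul, hr2, zero_mul]
  · obtain ⟨f', hf'⟩ := hW.ker _ h6
    have hv' : v = -c + 4 * f' := by rw [hvf]; linear_combination 2 * hf'
    have h7 : σ v = -c + 4 * σ f' := by
      rw [hv', map_add, map_neg, hσc, map_mul, map_ofNat]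
    have h9 : (2 : W) * c = 2 * (2 * (σ f' + f')) := by
      rw [hσv', hv'] at h7
      linear_combination h7
    have h10 := mul_left_cancel₀ h20 h9
    apply hrc
    rw [h10, map_mul, hr2, zero_mul]

end Pool.Agent.XE31.C2
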