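import Pool.Agent.XE31.C2.StmA

/-! Project C2 (helper31, helper43), piece SYLC. -/

set_option autoImplicit false

namespace Pool.Agent.XE31.C2

open Polynomial

namespace Sylc

variable {R : Type} [CommRing R]

/-- the degree of the row -/
def rdeg {g h d : ℕ} (ρ : (Fin h × Fin d) ⊕ (Fin g × Fin d)) : ℕ :=
  ρ.elim (fun p => g + p.1) (fun p => p.1)

/-- the coordinate of the row -/
def rcor {g h d : ℕ} (ρ : (Fin h × Fin d) ⊕ (Fin g × Fin d)) : Fin d :=
  ρ.elim (fun p => p.2) (fun p => p.2)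

lemma syl_inl {d : ℕ} (F H : Matrix (Fin d) (Fin d) R[X]) (g h : ℕ)
    (ρ : (Fin h × Fin d) ⊕ (Fin g × Fin d)) (q : Fin h × Fin d) :
    Syl F H g h ρ (Sum.inl q) = (F (rcor ρ) q.2 * X ^ (q.1 : ℕ)).coeff (rdeg ρ) := by
  rcases ρ with p | p <;> rfl

lemma syl_inr {d : ℕ} (F H : Matrix (Fin d) (Fin d) R[X]) (g h : ℕ)
    (ρ : (Fin h × Fin d) ⊕ (Fin g × Fin d)) (q : Fin g × Fin d) :
    Syl F H g h ρ (Sum.inr q) = (H (rcor ρ) q.2 * X ^ (q.1 : ℕ)).coeff (rdeg ρ) := by
  rcases ρ with p | p <;> rfl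

lemma syl_map {S : Type} [CommRing S] (φ : R →+* S) {d : ℕ} (F H : Matrix (Fin d) (Fin d) R[X])
    (g h : ℕ) : φ.mapMatrix (Syl F H g h) =
      Syl (F.map (Polynomial.mapRingHom φ)) (H.map (Polynomial.mapRingHom φ)) g h := by
  ext ρ κ
  rw [RingHom.mapMatrix_apply, Matrix.map_apply]
  rcases κ with q | q
  · rw [syl_inl, syl_inl, Matrix.map_apply, ← coeff_map, Polynomial.map_mul, Polynomial.map_pow,
      map_X]
    rfl
  · rw [syl_inr, syl_inr, Matrix.map_apply, ← coeff_map, Polynomial.map_mul, Polynomial.map_pow,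
      map_X]
    rfl

lemma expand {g : ℕ} (P W : R[X]) (hW : W.natDegree < g) (m : ℕ) :
    (P * W).coeff m = ∑ i : Fin g, (P * X ^ (i : ℕ)).coeff m * W.coeff i := by
  conv_lhs => rw [W.as_sum_range_C_mul_X_pow' hW]
  rw [Finset.mul_sum, finsetSum_coeff, Finset.sum_range]
  refine Finset.sum_congr rfl fun i _ => ?_
  rw [show P * (C (W.coeff i) * X ^ (i : ℕ)) = C (W.coeff i) * (P * X ^ (i : ℕ)) by ring,
    coeff_C_mul, mul_comm]

/-- the case `π = 0` -/
lemma det_eq {d g h v : ℕ} (F F' H V : Matrix (Fin d) (Fin d) R[X])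
    (hV : ∀ i j, (V i j).natDegree ≤ v) (hvh : v + h ≤ g) (hF : F' = F + H * V) :
    (Syl F' H g h).det = (Syl F H g h).det := by
  obtain ⟨𝓥, h𝓥⟩ : ∃ 𝓥 : Matrix (Fin g × Fin d) (Fin h × Fin d) R,
      𝓥 = Matrix.of fun p q => (V p.2 q.2 * X ^ (q.1 : ℕ)).coeff p.1 := ⟨_, rfl⟩
  have hmul : Syl F' H g h = Syl F H g h * Matrix.fromBlocks 1 0 𝓥 1 := by
    ext ρ κ
    rw [Matrix.mul_apply, Fintype.sum_sum_type]
    rcases κ with q | q
    · simp only [Matrix.fromBlocks_apply₁₁, Matrix.fromBlocks_apply₂₁]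
      have h1 : ∑ p : Fin h × Fin d, Syl F H g h ρ (Sum.inl p) * (1 : Matrix _ _ R) p q =
          Syl F H g h ρ (Sum.inl q) := by
        simp [Matrix.one_apply]
      rw [h1, syl_inl, syl_inl, hF, Matrix.add_apply, add_mul, coeff_add]
      congr 1
      rw [Matrix.mul_apply, Finset.sum_mul, finsetSum_coeff, Fintype.sum_prod_type_right]
      refine Finset.sum_congr rfl fun k _ => ?_
      rw [mul_assoc, expand (g := g) (H (rcor ρ) k) (V k q.2 * X ^ (q.1 : ℕ)) ?_ (rdeg ρ)]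
      · refine Finset.sum_congr rfl fun i _ => ?_
        rw [syl_inr, h𝓥]
        rfl
      · have h2 := natDegree_mul_le (p := V k q.2) (q := X ^ (q.1 : ℕ))
        have h3 := natDegree_X_pow_le (R := R) (q.1 : ℕ)
        have h4 := hV k q.2
        have h5 := q.1.2
        omega
    · simp only [Matrix.fromBlocks_apply₁₂, Matrix.fromBlocks_apply₂₂, Matrix.zero_apply, mul_zero,
        Finset.sum_const_zero, zero_add]
      have h1 : ∑ p : Fin g × Fin d, Syl F H g h ρ (Sum.inr p) * (1 : Matrix _ _ R) p q =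
          Syl F H g h ρ (Sum.inr q) := by
        simp [Matrix.one_apply]
      rw [h1, syl_inr, syl_inr]
  rw [hmul, Matrix.det_mul, Matrix.det_fromBlocks_zero₁₂, Matrix.det_one, Matrix.det_one, one_mul,
    mul_one]

end Sylc

open Sylc

theorem t_sylc : St_sylc := by
  intro R _ d g h v F F' H V Z π hV hvh hF
  obtain ⟨φ, hφ⟩ : ∃ φ : R →+* R ⧸ Ideal.span {π}, φ = Ideal.Quotient.mk _ := ⟨_, rfl⟩
  have hφπ : φ π = 0 := by
    rw [hφ]
    exact Ideal.Quotient.eq_zero_iff_mem.2 (Ideal.mem_span_singleton_self _)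
  have h1 : F'.map (Polynomial.mapRingHom φ) = F.map (Polynomial.mapRingHom φ) +
      H.map (Polynomial.mapRingHom φ) * V.map (Polynomial.mapRingHom φ) := by
    rw [hF]
    ext1 i j
    simp only [Matrix.map_apply, Matrix.add_apply, Matrix.mul_apply, Matrix.smul_apply,
      Polynomial.map_add, Polynomial.map_sum, Polynomial.map_mul, smul_eq_mul, coe_mapRingHom,
      map_C, hφπ, C_0, zero_mul, add_zero]
  have h2 := det_eq (g := g) (h := h) _ _ _ _ (fun i j => ?_) hvh h1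
  · rw [← syl_map, ← syl_map, ← RingHom.map_det, ← RingHom.map_det] at h2
    have h3 : (Syl F' H g h).det - (Syl F H g h).det ∈ Ideal.span {π} := by
      rw [← Ideal.Quotient.eq_zero_iff_mem, ← hφ, map_sub, h2, sub_self]
    obtain ⟨t, ht⟩ := Ideal.mem_span_singleton.1 h3
    exact ⟨t, by linear_combination ht⟩
  · rw [Matrix.map_apply]
    exact natDegree_map_le.trans (hV i j)

end Pool.Agent.XE31.C2
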