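import Pool.Agent.XE31.C2.StmA

/-! Project C2 (helper31, helper43), piece WIT. -/

set_option autoImplicit false

namespace Pool.Agent.XE31.C2

open Polynomial

theorem t_wit : St_wit := by
  intro N _ _ _
  have _ : Fact (Nat.Prime 2) := ⟨Nat.prime_two⟩
  have hsec : ∀ x : N, (WittVector.constantCoeff : WittVector 2 N →+* N)
      (WittVector.teichmuller 2 x) = x := fun x => WittVector.teichmuller_coeff_zero 2 x
  have hker : ∀ w : WittVector 2 N, (WittVector.constantCoeff : WittVector 2 N →+* N) w = 0 →
      w ∈ Ideal.span {((2 : ℕ) : WittVector 2 N)} := fun w hw =>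
    (WittVector.mem_span_p_iff_coeff_zero_eq_zero w).2 hw
  have hker' : ∀ w : WittVector 2 N, w ∈ Ideal.span {((2 : ℕ) : WittVector 2 N)} →
      (WittVector.constantCoeff : WittVector 2 N →+* N) w = 0 := fun w hw =>
    (WittVector.mem_span_p_iff_coeff_zero_eq_zero w).1 hw
  have hunit : ∀ w : WittVector 2 N, (WittVector.constantCoeff : WittVector 2 N →+* N) w ≠ 0 →
      IsUnit w := fun w hw => WittVector.isUnit_of_coeff_zero_ne_zero w hw
  refine ⟨WittVector 2 N, inferInstance, WittVector.constantCoeff, WittVector.teichmuller 2,
    { dom := inferInstance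
      two := ?_
      sec := hsec
      zero := WittVector.teichmuller_zero 2
      one := map_one _
      mul := fun x y => map_mul _ x y
      ker := ?_
      unit := hunit
      hensel := ?_
      aut := ?_ }⟩
  · have := WittVector.p_nonzero 2 N
    exact_mod_cast this
  · intro w hw
    obtain ⟨v, hv⟩ := Ideal.mem_span_singleton.1 (hker w hw)
    exact ⟨v, by rw [hv]; norm_num⟩
  · intro f hf a ha hda
    have hev : ∀ (g : (WittVector 2 N)[X]) (c : WittVector 2 N),
        (WittVector.constantCoeff : WittVector 2 N →+* N) (g.eval c) =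
          (g.map WittVector.constantCoeff).eval (WittVector.constantCoeff c) := by
      intro g c
      rw [eval_map, eval₂_at_apply]
    have _ : HenselianRing (WittVector 2 N) (Ideal.span {((2 : ℕ) : WittVector 2 N)}) :=
      inferInstance
    obtain ⟨b, hb1, hb2⟩ := HenselianRing.is_henselian
      (I := Ideal.span {((2 : ℕ) : WittVector 2 N)}) f hf (WittVector.teichmuller 2 a) (by
        apply hker
        rw [hev, hsec]
        exact ha) (by
        refine IsUnit.map _ (hunit _ ?_)
        rw [hev, hsec, ← derivative_map]
        exact hda)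
    refine ⟨b, hb1, ?_⟩
    have h1 := hker' _ hb2
    rw [map_sub, hsec, sub_eq_zero] at h1
    exact h1
  · intro σ
    refine ⟨RingEquiv.ofRingHom (WittVector.map (σ : N →+* N)) (WittVector.map (σ.symm : N →+* N))
      ?_ ?_, ?_, ?_⟩
    · refine RingHom.ext fun w => ?_
      ext n
      simp [WittVector.map_coeff]
    · refine RingHom.ext fun w => ?_
      ext n
      simp [WittVector.map_coeff]
    · intro w
      rfl
    · intro x
      exact WittVector.map_teichmuller 2 (σ : N →+* N) x

end Pool.Agent.XE31.C2
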